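import Mathlib

set_option autoImplicit false

/-! The number of homomorphisms from a finite abelian group to a product of cyclic groups. -/

namespace Pool.Agent.Y159.HM

open Finset

theorem prod_le_sum_pow {r : ℕ} (hr : 1 ≤ r) (a : Fin r → ℝ) (h : ∀ i, 0 ≤ a i) :
    ∏ i, a i ≤ ∑ i, a i ^ r := by
  have : Nonempty (Fin r) := ⟨⟨0, by omega⟩⟩
  obtain ⟨i0, hi0⟩ := Finite.exists_max a
  calc ∏ i, a i ≤ ∏ _i : Fin r, a i0 := Finset.prod_le_prod (fun i _ => h i) fun i _ => hi0 i
    _ = a i0 ^ r := by rw [prod_const, card_univ, Fintype.card_fin]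
    _ ≤ ∑ i, a i ^ r := Finset.single_le_sum (f := fun i => a i ^ r)
        (fun i _ => pow_nonneg (h i) r) (mem_univ i0)

/-- homomorphisms to a cyclic group -/
theorem card_hom_cyclic (A : Type*) [CommGroup A] [Finite A] (n : ℕ) (hn : 1 ≤ n) :
    Nat.card (A →* Multiplicative (ZMod n)) = Nat.card {x : A // x ^ n = 1} := by
  have hn0 : NeZero n := ⟨by omega⟩
  have hex : NeZero (Monoid.exponent A) := ⟨Monoid.exponent_ne_zero_of_finite⟩
  obtain ⟨e⟩ := CommGroup.monoidHom_mulEquiv_of_hasEnoughRootsOfUnity A ℂ
  -- homomorphisms to `ZMod n` are the characters killed by `n`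
  have hcyc : IsCyclic (rootsOfUnity n ℂ) := inferInstance
  have hcard : Nat.card (rootsOfUnity n ℂ) = n := Complex.card_rootsOfUnity n
  have hc2 : Nat.card (Multiplicative (ZMod n)) = n := by
    rw [Nat.card_eq_fintype_card, Fintype.card_multiplicative, ZMod.card]
  have e2 : Multiplicative (ZMod n) ≃* rootsOfUnity n ℂ :=
    mulEquivOfCyclicCardEq (hc2.trans hcard.symm)
  have e3 : (A →* Multiplicative (ZMod n)) ≃ {χ : A →* ℂˣ // χ ^ n = 1} :=
    { toFun := fun φ => ⟨(rootsOfUnity n ℂ).subtype.comp (e2.toMonoidHom.comp φ), by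
        ext x
        have : ((e2 (φ x) : rootsOfUnity n ℂ) : ℂˣ) ^ n = 1 := (e2 (φ x)).2
        simp only [MonoidHom.pow_apply, MonoidHom.comp_apply, MonoidHom.one_apply]
        exact congrArg Units.val this⟩
      invFun := fun χ => e2.symm.toMonoidHom.comp (χ.1.codRestrict (rootsOfUnity n ℂ) (fun x => by
        rw [mem_rootsOfUnity, ← MonoidHom.pow_apply, χ.2, MonoidHom.one_apply]))
      left_inv := by
        intro φ
        ext x
        simp
      right_inv := by
        intro χ
        apply Subtype.ext
        ext x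
        simp }
  have e4 : {χ : A →* ℂˣ // χ ^ n = 1} ≃ {x : A // x ^ n = 1} :=
    e.toEquiv.subtypeEquiv (fun χ => by
      constructor
      · intro h
        show (e χ) ^ n = 1
        rw [← map_pow, h, map_one]
      · intro h
        have h' : (e χ) ^ n = 1 := h
        rw [← map_pow] at h'
        exact e.injective (h'.trans (map_one e).symm))
  exact Nat.card_congr (e3.trans e4)

/-- homomorphisms to a product -/
theorem card_hom_pi (A : Type*) [CommGroup A] [Finite A] {r : ℕ} (l : Fin r → ℕ)
    (hl : ∀ i, 1 ≤ l i) :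
    Nat.card (A →* ((i : Fin r) → Multiplicative (ZMod (l i)))) =
      ∏ i, Nat.card {x : A // x ^ l i = 1} := by
  have e : (A →* ((i : Fin r) → Multiplicative (ZMod (l i)))) ≃
      ((i : Fin r) → (A →* Multiplicative (ZMod (l i)))) :=
    { toFun := fun φ i => (Pi.evalMonoidHom _ i).comp φ
      invFun := fun φ => MonoidHom.pi φ
      left_inv := by intro φ; rfl
      right_inv := by intro φ; rfl }
  rw [Nat.card_congr e, Nat.card_pi]
  exact Finset.prod_congr rfl fun i _ => card_hom_cyclic A (l i) (hl i)

/-- surjections from the `p`-primary part to a group isomorphic to a product of cyclic groups -/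
theorem card_sur_le (A : Type*) [CommGroup A] [Finite A] (p : ℕ) [Fact p.Prime] {r : ℕ}
    (l : Fin r → ℕ) (hl : ∀ i, 1 ≤ l i) (G : Type*) [CommGroup G]
    (e : G ≃* ((i : Fin r) → Multiplicative (ZMod (l i)))) :
    Nat.card {φ : CommGroup.primaryComponent A p →* G // Function.Surjective φ} ≤
      ∏ i, Nat.card {x : A // x ^ l i = 1} := by
  have hn0 : ∀ i, NeZero (l i) := fun i => ⟨by have := hl i; omega⟩
  set P := CommGroup.primaryComponent A p with hP
  have hfin : Finite (P →* G) := by
    have : Finite G := Finite.of_equiv _ e.symm.toEquiv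
    exact Finite.of_injective (fun φ : P →* G => (φ : P → G)) DFunLike.coe_injective
  have h1 : Nat.card {φ : P →* G // Function.Surjective φ} ≤ Nat.card (P →* G) :=
    Nat.card_le_card_of_injective (fun φ => φ.1) Subtype.val_injective
  have h2 : Nat.card (P →* G) = Nat.card (P →* ((i : Fin r) → Multiplicative (ZMod (l i)))) :=
    Nat.card_congr
      { toFun := fun φ => e.toMonoidHom.comp φ
        invFun := fun φ => e.symm.toMonoidHom.comp φ
        left_inv := by intro φ; ext x; simp
        right_inv := by intro φ; ext x; simp }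
  rw [h2, card_hom_pi P l hl] at h1
  refine h1.trans (Finset.prod_le_prod' fun i _ => ?_)
  refine Nat.card_le_card_of_injective
    (fun x : {x : P // x ^ l i = 1} => (⟨(x.1 : A), ?_⟩ : {x : A // x ^ l i = 1})) ?_
  · have := congrArg (fun y : P => (y : A)) x.2
    simpa using this
  · intro x y hxy
    have : ((x.1 : A)) = (y.1 : A) := congrArg (fun w : {x : A // x ^ l i = 1} => w.1) hxy
    exact Subtype.ext (Subtype.ext this)

end Pool.Agent.Y159.HM
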