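import Pool.Agent.Y159.HM.Hom
import Pool.Agent.Y159.QS.Fin

set_option autoImplicit false

/-! Mixed moments. -/

namespace Pool.Agent.Y159.HM

open NumberField Finset

/-- a mixed moment is bounded by the pure moments -/
theorem mix {ι : Type*} (S : Finset ι) {r : ℕ} (hr : 1 ≤ r) (T : Fin r → ι → ℝ)
    (hT : ∀ i D, 0 ≤ T i D) (lam : Fin r → ℝ) (hlam : ∀ i, 0 < lam i) (Cc : Fin r → ℝ) (Q : ℝ)
    (h : ∀ i, ∑ D ∈ S, T i D ^ r ≤ Cc i * Q * lam i ^ r) :
    ∑ D ∈ S, ∏ i, T i D ≤ (∑ i, Cc i) * Q * ∏ i, lam i := by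
  have hprod : 0 < ∏ i, lam i := Finset.prod_pos fun i _ => hlam i
  have h1 : ∀ D ∈ S, ∏ i, T i D ≤ (∏ i, lam i) * ∑ i, (T i D / lam i) ^ r := by
    intro D _
    have h2 := prod_le_sum_pow hr (fun i => T i D / lam i) (fun i => div_nonneg (hT i D) (hlam i).le)
    have h3 : ∏ i, T i D = (∏ i, lam i) * ∏ i, (T i D / lam i) := by
      rw [← Finset.prod_mul_distrib]
      refine Finset.prod_congr rfl fun i _ => ?_
      have := (hlam i).ne'
      field_simp
    rw [h3]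
    gcongr
  calc ∑ D ∈ S, ∏ i, T i D ≤ ∑ D ∈ S, (∏ i, lam i) * ∑ i, (T i D / lam i) ^ r :=
        Finset.sum_le_sum h1
    _ = (∏ i, lam i) * ∑ i, ∑ D ∈ S, (T i D / lam i) ^ r := by
        rw [← Finset.mul_sum, Finset.sum_comm]
    _ ≤ (∏ i, lam i) * ∑ i, Cc i * Q := by
        apply mul_le_mul_of_nonneg_left _ hprod.le
        apply Finset.sum_le_sum
        intro i _
        have h4 : ∑ D ∈ S, (T i D / lam i) ^ r = (∑ D ∈ S, T i D ^ r) / lam i ^ r := by
          rw [Finset.sum_div]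
          exact Finset.sum_congr rfl fun D _ => by rw [div_pow]
        rw [h4, div_le_iff₀ (pow_pos (hlam i) r)]
        exact h i
    _ = _ := by rw [← Finset.sum_mul]; ring

variable (p : ℕ) [Fact p.Prime] (r : ℕ) (hr : 1 ≤ r) (a : Fin r → ℕ) (G : Type) [CommGroup G]
  (e : G ≃* ((i : Fin r) → Multiplicative (ZMod (p ^ a i))))

include e hr

/-- the number of surjections is at most the product of the torsion numbers -/
theorem sur_le (K : Type) [Field K] [NumberField K] :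
    (Nat.card {φ : CommGroup.primaryComponent (ClassGroup (𝓞 K)) p →* G //
      Function.Surjective φ} : ℝ) ≤
      ∏ i, (Nat.card {x : ClassGroup (𝓞 K) // x ^ (p ^ a i) = 1} : ℝ) := by
  have h := card_sur_le (ClassGroup (𝓞 K)) p (fun i => p ^ a i)
    (fun i => Nat.one_le_pow _ _ (Fact.out : p.Prime).pos) G e
  calc (Nat.card {φ : CommGroup.primaryComponent (ClassGroup (𝓞 K)) p →* G //
      Function.Surjective φ} : ℝ)
      ≤ ((∏ i, Nat.card {x : ClassGroup (𝓞 K) // x ^ (p ^ a i) = 1} : ℕ) : ℝ) := by exact_mod_cast h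
    _ = _ := by push_cast; rfl

/-- short intervals -/
theorem mom_short (ε : ℝ) (hε : 0 < ε) : ∃ C : ℝ, 0 < C ∧
    ∀ X H : ℝ, 1 ≤ H → H ≤ X → (∀ i, (H * √X) ^ (3 * (r : ℝ) / ((p : ℝ) ^ a i + r)) ≤ H) →
    ∀ (S : Finset ℤ) (K : ℤ → Type) [∀ D, Field (K D)] [∀ D, NumberField (K D)],
    (∀ D ∈ S, (X ≤ |(D : ℝ)| ∧ |(D : ℝ)| ≤ X + H) ∧ Module.finrank ℚ (K D) = 2 ∧
      NumberField.discr (K D) = D) →
    ∑ D ∈ S, (Nat.card {φ : CommGroup.primaryComponent (ClassGroup (𝓞 (K D))) p →* G //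
      Function.Surjective φ} : ℝ) ≤
      C * X ^ ε * H * ∏ i, (√X / (H * √X) ^ (1 / ((p : ℝ) ^ a i + r))) := by
  have hl : ∀ i, 1 ≤ p ^ a i := fun i => Nat.one_le_pow _ _ (Fact.out : p.Prime).pos
  choose C hC0 hC using fun i : Fin r => Pool.Agent.Y159.QS.short' (p ^ a i) r (hl i) hr ε hε
  have hne : (univ : Finset (Fin r)).Nonempty := ⟨⟨0, by omega⟩, mem_univ _⟩
  refine ⟨∑ i, C i, Finset.sum_pos (fun i _ => hC0 i) hne, ?_⟩
  intro X H hH hHX hc S K _ _ hS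
  have hX : 1 ≤ X := hH.trans hHX
  have hX0 : 0 < X := by linarith
  have hH0 : 0 < H := by linarith
  have hsX : 0 < √X := Real.sqrt_pos.mpr hX0
  refine (Finset.sum_le_sum fun D _ => sur_le p r hr a G e (K D)).trans ?_
  have h := mix S hr (fun i D => (Nat.card {x : ClassGroup (𝓞 (K D)) // x ^ (p ^ a i) = 1} : ℝ))
    (fun i D => Nat.cast_nonneg _) (fun i => √X / (H * √X) ^ (1 / ((p : ℝ) ^ a i + r)))
    (fun i => by positivity) C (X ^ ε * H) (by
      intro i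
      have h1 := hC i X H hH hHX (by
        have := hc i
        push_cast
        exact this) S K hS
      refine h1.trans (le_of_eq ?_)
      push_cast
      ring)
  refine h.trans (le_of_eq ?_)
  ring

/-- all discriminants -/
theorem mom_full (hra : ∀ i, 7 * r ≤ 2 * p ^ a i) (ε : ℝ) (hε : 0 < ε) : ∃ C : ℝ, 0 < C ∧
    ∀ X : ℝ, 1 ≤ X →
    ∀ (S : Finset ℤ) (K : ℤ → Type) [∀ D, Field (K D)] [∀ D, NumberField (K D)],
    (∀ D ∈ S, |(D : ℝ)| ≤ X ∧ Module.finrank ℚ (K D) = 2 ∧ NumberField.discr (K D) = D) →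
    ∑ D ∈ S, (Nat.card {φ : CommGroup.primaryComponent (ClassGroup (𝓞 (K D))) p →* G //
      Function.Surjective φ} : ℝ) ≤
      C * X ^ (1 + (r : ℝ) / 2 - ∑ i, 3 / (2 * ((p : ℝ) ^ a i + r)) + ε) := by
  choose C hC0 hC using fun i : Fin r => Pool.Agent.Y159.QS.full (p ^ a i) r hr (hra i) ε hε
  have hne : (univ : Finset (Fin r)).Nonempty := ⟨⟨0, by omega⟩, mem_univ _⟩
  refine ⟨∑ i, C i, Finset.sum_pos (fun i _ => hC0 i) hne, ?_⟩
  intro X hX S K _ _ hS
  have hX0 : 0 < X := by linarith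
  refine (Finset.sum_le_sum fun D _ => sur_le p r hr a G e (K D)).trans ?_
  have h := mix S hr (fun i D => (Nat.card {x : ClassGroup (𝓞 (K D)) // x ^ (p ^ a i) = 1} : ℝ))
    (fun i D => Nat.cast_nonneg _) (fun i => X ^ (1 / 2 - 3 / (2 * ((p : ℝ) ^ a i + r))))
    (fun i => Real.rpow_pos_of_pos hX0 _) C (X ^ (1 + ε)) (by
      intro i
      have h1 := hC i X hX S K hS
      refine h1.trans (le_of_eq ?_)
      rw [← Real.rpow_natCast (X ^ (1 / 2 - 3 / (2 * ((p : ℝ) ^ a i + r)))) r,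
        ← Real.rpow_mul hX0.le, mul_assoc, ← Real.rpow_add hX0]
      congr 2
      push_cast
      ring)
  refine h.trans (le_of_eq ?_)
  rw [← Real.rpow_sum_of_pos hX0, mul_assoc, ← Real.rpow_add hX0]
  congr 2
  rw [Finset.sum_sub_distrib, sum_const, card_univ, Fintype.card_fin, nsmul_eq_mul]
  ring

end Pool.Agent.Y159.HM
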